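import Pool.Agent.H379R3.CDQ.Stmts

set_option autoImplicit false

namespace Pool.Agent.H940R3.CDQ

open Pool.Agent.H379R3.CDQ

lemma dd_coe {G M : Type} [AddCommGroup M] (A : AddSubgroup M) {n : ℕ} (h : (Fin n → G) → A)
    (v : Fin (n + 1) → G) : ((dd h v : A) : M) = dd (fun w => ((h w : A) : M)) v := by
  unfold dd
  rw [AddSubgroup.val_finsetSum]
  exact Finset.sum_congr rfl fun i _ => by simp

/-- The action on a stable subgroup. -/
@[reducible] def act {G M : Type} [Group G] [AddCommGroup M] [DistribMulAction G M]
    (A : AddSubgroup M) (hA : ∀ (g : G), ∀ x ∈ A, g • x ∈ A) : DistribMulAction G A where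
  smul g x := ⟨g • (x : M), hA g x x.2⟩
  one_smul x := Subtype.ext (one_smul G (x : M))
  mul_smul g h x := Subtype.ext (mul_smul g h (x : M))
  smul_zero g := Subtype.ext (smul_zero g)
  smul_add g x y := Subtype.ext (smul_add g (x : M) (y : M))

theorem taskTors : TaskTors := by
  intro G _ _ _ _ n hfin M _ _ hdisc htors f hlc heqv hcoc
  have hrange : (Set.range f).Finite := hlc.range_finite
  set A : AddSubgroup M := AddSubgroup.closure (Set.range f) with hAdef
  have hA : ∀ (g : G), ∀ x ∈ A, g • x ∈ A := by
    intro g x hx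
    induction hx using AddSubgroup.closure_induction with
    | mem y hy =>
      obtain ⟨v, rfl⟩ := hy
      rw [← heqv g v]
      exact AddSubgroup.subset_closure ⟨_, rfl⟩
    | zero => rw [smul_zero]; exact A.zero_mem
    | add y z _ _ hy hz => rw [smul_add]; exact A.add_mem hy hz
    | neg y _ hy => rw [smul_neg]; exact A.neg_mem hy
  letI : DistribMulAction G A := act A hA
  haveI : Finite (Set.range f) := hrange
  haveI hfg : AddGroup.FG A := by
    rw [AddGroup.fg_iff_addSubgroup_fg]
    exact ⟨hrange.toFinset, by simp [hAdef]⟩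
  haveI : Finite A := by
    apply AddCommGroup.finite_of_fg_torsion
    intro x
    obtain ⟨k, hk, hkx⟩ := htors (x : M)
    rw [isOfFinAddOrder_iff_nsmul_eq_zero]
    exact ⟨k, hk, Subtype.ext (by simpa using hkx)⟩
  have hdA : IsDisc G A := by
    intro x
    have h1 : (MulAction.stabilizer G x : Set G) = MulAction.stabilizer G (x : M) := by
      ext g
      simp only [SetLike.mem_coe, MulAction.mem_stabilizer_iff]
      constructor
      · intro h
        exact congrArg Subtype.val h
      · intro h
        exact Subtype.ext h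
    rw [h1]
    exact hdisc x
  obtain ⟨h, hh1, hh2, hh3⟩ := hfin A hdA
    (fun v => ⟨f v, AddSubgroup.subset_closure ⟨v, rfl⟩⟩)
    (IsLocallyConstant.desc _ (Subtype.val : A → M) hlc Subtype.val_injective)
    (fun g v => Subtype.ext (heqv g v))
    (fun v => Subtype.ext (by rw [dd_coe]; exact hcoc v))
  refine ⟨fun w => ((h w : A) : M), hh1.comp _, ?_, ?_⟩
  · intro g v
    exact congrArg Subtype.val (hh2 g v)
  · intro v
    have := congrArg Subtype.val (hh3 v)
    rw [dd_coe] at this
    exact this

end Pool.Agent.H940R3.CDQ
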